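import Pool.Agent.H71.AL.Targets

/-!
Row CZB: codes are isomorphic if and only if the sequences are conjugate on the circle.
-/

set_option autoImplicit false

open Set
open Pool.Agent.AL

namespace Pool.Agent.H70.ALV

/-- a homeomorphism which commutes with the translation by one commutes with integers -/
theorem add_int {g : ℝ → ℝ} (hg : ∀ x, g (x + 1) = g x + 1) (x : ℝ) (j : ℤ) :
    g (x + j) = g x + j := by
  induction j using Int.induction_on with
  | zero => simp
  | succ i ih =>
    have h1 : x + ((i : ℤ) + 1 : ℤ) = (x + (i : ℤ)) + 1 := by push_cast; ring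
    rw [h1, hg, ih]
    push_cast
    ring
  | pred i ih =>
    have h1 := hg (x + (-(i : ℤ) - 1 : ℤ))
    have h2 : x + (-(i : ℤ) - 1 : ℤ) + 1 = x + (-(i : ℤ) : ℤ) := by push_cast; ring
    rw [h2, ih] at h1
    push_cast at h1 ⊢
    linarith

/-- the homeomorphisms of a code -/
theorem cz_spec (hH : T_HOM) {y : Y} {e : ℕ → ℝ} {n : ℕ → ℤ} {h : ℕ → ℝ ≃ₜ ℝ}
    (hh : ∀ k, Lf (h k)) (hz : Cz y (rs h) e n) : ∃ H : ℕ → ℝ ≃ₜ ℝ, Cd y (rs H) e ∧
    (∀ x, H 0 x = x + 1) ∧ (∀ k x, H (k + 1) x = h k x - n k) ∧ (∀ k x, x ≤ H (k + 1) x) ∧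
    ∀ k, ∃ x, H (k + 1) x < x + 1 := by
  obtain ⟨hsp, hem, h1, hcd⟩ := hz
  obtain ⟨H, hH1, -, hH2⟩ := hH y e hsp.cy.1 hem
  have h2 := (hH2 _).1 hcd
  have h3 : ∀ x, H 0 x = x + 1 := by
    have h4 : (fun x : ℝ => H 0 x) = fun x => x + 1 := by
      refine Rat.denseRange_cast.equalizer (H 0).continuous (continuous_id.add continuous_const) ?_
      funext q
      have h5 := congrFun (congrFun h2 0) q
      exact h5.symm
    exact fun x => congrFun h4 x
  have h6 : ∀ k x, H (k + 1) x = h k x - n k := by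
    intro k
    have h4 : (fun x : ℝ => H (k + 1) x) = fun x => h k x - n k := by
      refine Rat.denseRange_cast.equalizer (H (k + 1)).continuous
        ((h k).continuous.sub continuous_const) ?_
      funext q
      have h5 := congrFun (congrFun h2 (k + 1)) q
      exact h5.symm
    exact fun x => congrFun h4 x
  refine ⟨H, (hH2 _).2 rfl, h3, h6, ?_, ?_⟩
  · intro k x
    by_contra hx
    rw [not_le] at hx
    obtain ⟨d, ⟨m, rfl⟩, h7, h8⟩ := hem.den _ _ hx
    have h9 : ¬ e (y.2 (2 * (k + 1)) m) < e m := fun h => hsp.nor k m ((hem.ord _ _).2 h)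
    rw [hH1 (k + 1) m] at h9
    apply h9
    refine lt_trans ?_ h7
    rw [h6, h6]
    exact sub_lt_sub_right ((hh k).1 h8) _
  · intro k
    obtain ⟨m, hm⟩ := hsp.nor' k
    refine ⟨e m, ?_⟩
    have h7 := (hem.ord _ _).1 hm
    rwa [hH1 (k + 1) m, h1 m] at h7

theorem pf_CZB (hJ : T_CNJ) (hH : T_HOM) (hN : T_NRM) : T_CZB := by
  intro y y' e e' n n' h h' hh hh' hz hz'
  obtain ⟨H, c, c0, c1, c2, c3⟩ := cz_spec hH hh hz
  obtain ⟨H', d, d0, d1, d2, d3⟩ := cz_spec hH hh' hz'
  rw [hJ y y' e e' H H' hz.1.cy hz'.1.cy hz.2.1 hz'.2.1 c d]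
  constructor
  · rintro ⟨g, hg, hgc⟩
    have hg1 : ∀ x, g (x + 1) = g x + 1 := by
      intro x
      rw [← c0, hgc 0 x, d0]
    refine ⟨g, ⟨hg, hg1⟩, fun k => ⟨n k - n' k, fun x => ?_⟩⟩
    have h1 : h k x = H (k + 1) x + n k := by
      rw [c1]
      ring
    rw [h1, add_int hg1, hgc (k + 1) x, d1]
    push_cast
    ring
  · rintro ⟨g, ⟨hg, hg1⟩, hgc⟩
    refine ⟨g, hg, fun k x => ?_⟩
    rcases k with _ | k
    · rw [c0, hg1, d0]
    · obtain ⟨N, hN1⟩ := hgc k
      have h1 : ∀ x, g (H (k + 1) x) = H' (k + 1) (g x) + ((n' k + N - n k : ℤ) : ℝ) := by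
        intro x
        have h2 : H (k + 1) x = h k x + ((- n k : ℤ) : ℝ) := by
          rw [c1]
          push_cast
          ring
        rw [h2, add_int hg1, hN1, d1]
        push_cast
        ring
      have hlf : Lf (H' (k + 1)) := by
        constructor
        · intro a b hab
          rw [d1, d1]
          exact sub_lt_sub_right ((hh' k).1 hab) _
        · intro x
          rw [d1, d1, (hh' k).2]
          ring
      obtain ⟨m, -, -, hm⟩ := hN (H' (k + 1)) hlf
      have e0 : (0 : ℤ) = m := by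
        refine hm 0 (fun x => ?_) ?_
        · have := d2 k x
          push_cast
          linarith
        · obtain ⟨x, hx⟩ := d3 k
          refine ⟨x, ?_⟩
          push_cast
          linarith
      have e1 : -(n' k + N - n k) = m := by
        refine hm _ (fun z => ?_) ?_
        · have h2 := h1 (g.symm z)
          rw [g.apply_symm_apply] at h2
          have h3 : z ≤ g (H (k + 1) (g.symm z)) := by
            have h4 := hg.monotone (c2 k (g.symm z))
            rwa [g.apply_symm_apply] at h4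
          push_cast at h2 ⊢
          linarith
        · obtain ⟨x, hx⟩ := c3 k
          refine ⟨g x, ?_⟩
          have h2 := h1 x
          have h3 := hg hx
          rw [hg1] at h3
          push_cast at h2 ⊢
          linarith
      have e2 : n' k + N - n k = 0 := by omega
      rw [h1 x, e2]
      simp

end Pool.Agent.H70.ALV
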