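import Pool.Agent.H71.AL.Targets

/-!
Row HOM: the maps extend to homeomorphisms, and they are determined by the code.
-/

set_option autoImplicit false

open Set
open Pool.Agent.AL

namespace Pool.Agent.H70.ALV

section

variable {y : Y} {e : ℕ → ℝ}

theorem ord_of_inc {f : ℕ → ℕ} (he : Em (lt y) e) (hf : Inc (lt y) f) (m n : ℕ) :
    e m < e n ↔ e (f m) < e (f n) := by
  constructor
  · intro h
    exact (he.ord _ _).1 (hf m n ((he.ord m n).2 h))
  · intro h
    rcases lt_trichotomy (e m) (e n) with h1 | h1 | h1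
    · exact h1
    · rw [he.inj h1] at h
      exact absurd h (lt_irrefl _)
    · exact absurd ((he.ord _ _).1 (hf n m ((he.ord n m).2 h1))) (not_lt.2 h.le)

theorem ord_of_dec {f : ℕ → ℕ} (he : Em (lt y) e) (hf : Dec (lt y) f) (m n : ℕ) :
    e m < e n ↔ e (f n) < e (f m) := by
  constructor
  · intro h
    exact (he.ord _ _).1 (hf m n ((he.ord m n).2 h))
  · intro h
    rcases lt_trichotomy (e m) (e n) with h1 | h1 | h1
    · exact h1
    · rw [he.inj h1] at h
      exact absurd h (lt_irrefl _)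
    · exact absurd ((he.ord _ _).1 (hf n m ((he.ord n m).2 h1))) (not_lt.2 h.le)

theorem not_inc (hy : DL y) {f : ℕ → ℕ} (hf : Dec (lt y) f) : ¬ Inc (lt y) f := by
  intro h
  obtain ⟨b, hb⟩ := hy.top 0
  have h1 := h 0 b hb
  have h2 := hf 0 b hb
  exact hy.ln.1 _ (hy.ln.2.2 _ _ _ h1 h2)

theorem exists_hom (hX : T_EXT) (hy : DL y) (he : Em (lt y) e) (k : ℕ) : ∃ h : ℝ ≃ₜ ℝ,
    (∀ m, h (e m) = e (y.2 (2 * k) m)) ∧
    ((Inc (lt y) (y.2 (2 * k)) ∧ StrictMono h) ∨
      (¬ Inc (lt y) (y.2 (2 * k)) ∧ StrictAnti h)) := by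
  have hd : Ds (range fun m => e (y.2 (2 * k) m)) := by
    intro p q hpq
    obtain ⟨d, ⟨m, rfl⟩, hm⟩ := he.den p q hpq
    exact ⟨e m, ⟨y.2 (2 * k + 1) m, congrArg e (hy.inv k m).2⟩, hm⟩
  rcases hy.mono k with h | h
  · obtain ⟨g, hg, hg'⟩ := (hX e (fun m => e (y.2 (2 * k) m)) he.den hd).1
      fun m n => ord_of_inc he h m n
    exact ⟨g, hg', Or.inl ⟨h, hg⟩⟩
  · obtain ⟨g, hg, hg'⟩ := (hX e (fun m => e (y.2 (2 * k) m)) he.den hd).2
      fun m n => ord_of_dec he h m n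
    exact ⟨g, hg', Or.inr ⟨not_inc hy h, hg⟩⟩

/-- the code of one homeomorphism -/
theorem code_iff (he : Em (lt y) e) {k : ℕ} {h : ℝ ≃ₜ ℝ}
    (h1 : ∀ m, h (e m) = e (y.2 (2 * k) m))
    (h2 : (Inc (lt y) (y.2 (2 * k)) ∧ StrictMono h) ∨
      (¬ Inc (lt y) (y.2 (2 * k)) ∧ StrictAnti h)) (q : ℝ) (n : ℕ) : h q < e n ↔
    ∃ m, ((Inc (lt y) (y.2 (2 * k)) ∧ q < e m) ∨ (¬ Inc (lt y) (y.2 (2 * k)) ∧ e m < q)) ∧
      (y.2 (2 * k) m = n ∨ lt y (y.2 (2 * k) m) n) := by
  have hle : ∀ m, (y.2 (2 * k) m = n ∨ lt y (y.2 (2 * k) m) n) → h (e m) ≤ e n := by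
    intro m hm
    rw [h1]
    rcases hm with hm | hm
    · rw [hm]
    · exact ((he.ord _ _).1 hm).le
  have hlt : ∀ m, h (e m) < e n → (y.2 (2 * k) m = n ∨ lt y (y.2 (2 * k) m) n) := by
    intro m hm
    rw [h1] at hm
    exact Or.inr ((he.ord _ _).2 hm)
  rcases h2 with ⟨hi, hm⟩ | ⟨hi, hm⟩
  · constructor
    · intro h3
      have h4 : q < h.symm (e n) := by
        rw [← hm.lt_iff_lt, h.apply_symm_apply]
        exact h3
      obtain ⟨d, ⟨m, rfl⟩, h5, h6⟩ := he.den _ _ h4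
      refine ⟨m, Or.inl ⟨hi, h5⟩, hlt m ?_⟩
      have h7 := hm h6
      rwa [h.apply_symm_apply] at h7
    · rintro ⟨m, h3, h4⟩
      rcases h3 with ⟨-, h3⟩ | ⟨h3, -⟩
      · exact (hm h3).trans_le (hle m h4)
      · exact absurd hi h3
  · constructor
    · intro h3
      have h4 : h.symm (e n) < q := by
        rw [← hm.lt_iff_gt, h.apply_symm_apply]
        exact h3
      obtain ⟨d, ⟨m, rfl⟩, h5, h6⟩ := he.den _ _ h4
      refine ⟨m, Or.inr ⟨hi, h6⟩, hlt m ?_⟩
      have h7 := hm h5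
      rwa [h.apply_symm_apply] at h7
    · rintro ⟨m, h3, h4⟩
      rcases h3 with ⟨h3, -⟩ | ⟨-, h3⟩
      · exact absurd h3 hi
      · exact (hm h3).trans_le (hle m h4)

/-- reals are determined by the points above them -/
theorem eq_of_den (he : Ds (range e)) {a b : ℝ} (h : ∀ n, a < e n ↔ b < e n) : a = b := by
  rcases lt_trichotomy a b with h1 | h1 | h1
  · obtain ⟨d, ⟨m, rfl⟩, h5, h6⟩ := he _ _ h1
    exact absurd ((h m).1 h5) (not_lt.2 h6.le)
  · exact h1
  · obtain ⟨d, ⟨m, rfl⟩, h5, h6⟩ := he _ _ h1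
    exact absurd ((h m).2 h5) (not_lt.2 h6.le)

end

theorem pf_HOM (hX : T_EXT) : T_HOM := by
  intro y e hy he
  choose h h1 h2 using fun k => exists_hom hX hy he k
  refine ⟨h, fun k m => (h1 k m).symm, ?_, ?_⟩
  · intro w
    induction w with
    | nil => intro m; rfl
    | cons k w ih =>
      intro m
      change e (y.2 k (wd y.2 w m)) = dbl h k (gr h w (e m))
      rw [← ih m]
      rcases Nat.even_or_odd' k with ⟨j, hj | hj⟩
      · subst hj
        unfold dbl
        rw [if_pos (by omega)]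
        have h3 : 2 * j / 2 = j := by omega
        rw [h3]
        exact (h1 j _).symm
      · subst hj
        unfold dbl
        rw [if_neg (by omega)]
        have h3 : (2 * j + 1) / 2 = j := by omega
        rw [h3]
        rw [Homeomorph.eq_symm_apply, h1 j, (hy.inv j _).2]
  · intro a
    constructor
    · intro ha
      funext k q
      refine eq_of_den he.den fun n => ?_
      rw [ha k q n]
      exact (code_iff he (h1 k) (h2 k) q n).symm
    · intro ha k q n
      rw [ha]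
      exact code_iff he (h1 k) (h2 k) q n

end Pool.Agent.H70.ALV
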